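import Pool.Agent.H41.PS.Stm

set_option autoImplicit false

/-! Task PS/PS (project of helper41): `f` is a partial spread function. -/

namespace Pool.Agent.H376.PS

open Pool.Agent.H41.PS

/-- the number of a point of `F_2 ^ n` -/
def encN {n : ℕ} (x : Fin n → ZMod 2) : ℕ := ∑ i : Fin n, (x i).val * 2 ^ (i : ℕ)

theorem encN_succ {n : ℕ} (x : Fin (n + 1) → ZMod 2) :
    encN x = 2 * encN (fun i => x i.succ) + (x 0).val := by
  rw [encN, Fin.sum_univ_succ, encN, Finset.mul_sum, add_comm]
  congr 1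
  · refine Finset.sum_congr rfl fun i _ => ?_
    rw [Fin.val_succ, pow_succ]
    ring
  · simp

theorem encN_testBit {n : ℕ} (x : Fin n → ZMod 2) (i : Fin n) :
    (encN x).testBit i = decide (x i = 1) := by
  induction n with
  | zero => exact i.elim0
  | succ n ih =>
    have hv : (x 0).val < 2 := ZMod.val_lt _
    rw [encN_succ]
    refine Fin.cases ?_ (fun i => ?_) i
    · rw [Fin.val_zero, Nat.testBit_zero]
      have h1 : ∀ z : ZMod 2, decide (z.val = 1) = decide (z = 1) := by decide
      have h2 : (2 * encN (fun i => x i.succ) + (x 0).val) % 2 = (x 0).val := by omega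
      rw [h2]
      exact h1 (x 0)
    · rw [Fin.val_succ, Nat.testBit_succ]
      have h2 : (2 * encN (fun i => x i.succ) + (x 0).val) / 2 = encN (fun i => x i.succ) := by
        omega
      rw [h2]
      exact ih _ i

theorem encN_lt {n : ℕ} (x : Fin n → ZMod 2) : encN x < 2 ^ n := by
  induction n with
  | zero => simp [encN]
  | succ n ih =>
    have hv : (x 0).val < 2 := ZMod.val_lt _
    have h1 := ih (fun i => x i.succ)
    rw [encN_succ, pow_succ]
    omega

theorem enc_testBit (x : Fin 10 → ZMod 2) (i : Fin 10) :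
    (enc x).testBit i = decide (x i = 1) := encN_testBit x i

theorem enc_lt (x : Fin 10 → ZMod 2) : enc x < 1024 := encN_lt x

theorem testBit_ge {a j : ℕ} (ha : a < 1024) (hj : 10 ≤ j) : a.testBit j = false := by
  refine Nat.testBit_lt_two_pow (lt_of_lt_of_le ha ?_)
  calc 1024 = 2 ^ 10 := by norm_num
    _ ≤ 2 ^ j := Nat.pow_le_pow_right (by norm_num) hj

theorem enc_add (x y : Fin 10 → ZMod 2) : enc (x + y) = enc x ^^^ enc y := by
  refine Nat.eq_of_testBit_eq fun j => ?_
  rw [Nat.testBit_xor]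
  rcases lt_or_ge j 10 with h | h
  · have h1 := enc_testBit (x + y) ⟨j, h⟩
    have h2 := enc_testBit x ⟨j, h⟩
    have h3 := enc_testBit y ⟨j, h⟩
    rw [Fin.val_mk] at h1 h2 h3
    rw [h1, h2, h3, Pi.add_apply]
    have h4 : ∀ a b : ZMod 2, decide (a + b = 1) = (decide (a = 1) ^^ decide (b = 1)) := by decide
    exact h4 _ _
  · rw [testBit_ge (enc_lt _) h, testBit_ge (enc_lt _) h, testBit_ge (enc_lt _) h]
    rfl

theorem enc_zero : enc 0 = 0 := by
  simp [enc]

theorem enc_inj {x y : Fin 10 → ZMod 2} (h : enc x = enc y) : x = y := by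
  funext i
  have h1 := enc_testBit x i
  rw [h, enc_testBit y i] at h1
  have h2 : ∀ a b : ZMod 2, decide (a = 1) = decide (b = 1) → b = a := by decide
  exact h2 _ _ h1

/-- the point with a given number -/
def dec (n : ℕ) : Fin 10 → ZMod 2 := fun i => if n.testBit i then 1 else 0

theorem enc_dec {n : ℕ} (hn : n < 1024) : enc (dec n) = n := by
  refine Nat.eq_of_testBit_eq fun j => ?_
  rcases lt_or_ge j 10 with h | h
  · have h1 := enc_testBit (dec n) ⟨j, h⟩
    rw [Fin.val_mk] at h1
    rw [h1, dec, Fin.val_mk]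
    cases n.testBit j <;> simp
  · rw [testBit_ge (enc_lt _) h, testBit_ge hn h]

/-- the sums of the elements of a list -/
def spn : List ℕ → List ℕ
  | [] => [0]
  | b :: l => spn l ++ (spn l).map fun a => a ^^^ b

theorem zero_mem_spn (l : List ℕ) : 0 ∈ spn l := by
  induction l with
  | nil => exact List.mem_singleton.2 rfl
  | cons b l ih => exact List.mem_append.2 (Or.inl ih)

theorem xor_cancel (a b c : ℕ) : (a ^^^ c) ^^^ (b ^^^ c) = a ^^^ b := by
  rw [Nat.xor_comm b c, Nat.xor_assoc, ← Nat.xor_assoc c c b, Nat.xor_self, Nat.zero_xor]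

theorem xor_mem_spn {l : List ℕ} {a b : ℕ} (ha : a ∈ spn l) (hb : b ∈ spn l) :
    a ^^^ b ∈ spn l := by
  induction l generalizing a b with
  | nil =>
    rw [spn, List.mem_singleton] at ha hb
    rw [ha, hb, Nat.xor_self]
    exact zero_mem_spn []
  | cons c l ih =>
    rw [spn, List.mem_append, List.mem_map] at ha hb
    rw [spn, List.mem_append, List.mem_map]
    rcases ha with ha | ⟨a', ha', rfl⟩ <;> rcases hb with hb | ⟨b', hb', rfl⟩
    · exact Or.inl (ih ha hb)
    · exact Or.inr ⟨a ^^^ b', ih ha hb', Nat.xor_assoc _ _ _⟩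
    · refine Or.inr ⟨a' ^^^ b, ih ha' hb, ?_⟩
      rw [Nat.xor_assoc, Nat.xor_comm b c, ← Nat.xor_assoc]
    · exact Or.inl (by rw [xor_cancel]; exact ih ha' hb')

/-- the mask of a list -/
def mk : List ℕ → ℕ
  | [] => 0
  | a :: l => mk l ||| 1 <<< a

theorem mk_testBit (l : List ℕ) (n : ℕ) : (mk l).testBit n = decide (n ∈ l) := by
  induction l with
  | nil => simp [mk]
  | cons a l ih =>
    rw [mk, Nat.testBit_or, ih, Nat.one_shiftLeft, Nat.testBit_two_pow]
    by_cases h : n ∈ l
    · simp [h]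
    · simp [h, eq_comm]

/-- the basis number `i` -/
def bs (i : ℕ) : List ℕ := bas.getD i []

/-- the union of the masks -/
def un : ℕ → ℕ
  | 0 => 0
  | n + 1 => un n ||| mk (spn (bs n))

theorem un_testBit (m n : ℕ) : (un m).testBit n = true ↔ ∃ i < m, n ∈ spn (bs i) := by
  induction m with
  | zero => simp [un]
  | succ m ih =>
    rw [un, Nat.testBit_or, Bool.or_eq_true, ih, mk_testBit, decide_eq_true_eq]
    constructor
    · rintro (⟨i, hi, h⟩ | h)
      · exact ⟨i, by omega, h⟩
      · exact ⟨m, by omega, h⟩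
    · rintro ⟨i, hi, h⟩
      rcases lt_or_eq_of_le (Nat.lt_succ_iff.1 hi) with h1 | rfl
      · exact Or.inl ⟨i, h1, h⟩
      · exact Or.inr h

theorem chk1 : ∀ i < 16, (spn (bs i)).Nodup ∧ (spn (bs i)).length = 32 ∧
    ∀ a ∈ spn (bs i), a < 1024 := by
  decide +kernel

theorem chk2 : ∀ i < 16, ∀ j < 16, i ≠ j → mk (spn (bs i)) &&& mk (spn (bs j)) = 1 := by
  decide +kernel

theorem chk3 : un 16 = F ||| 1 ∧ F.testBit 0 = false := by
  decide +kernel

/-- the subspaces -/
def E (i : Fin 16) : Submodule (ZMod 2) (Fin 10 → ZMod 2) where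
  carrier := {x | enc x ∈ spn (bs i)}
  add_mem' {x y} hx hy := by
    change enc (x + y) ∈ spn (bs i)
    rw [enc_add]
    exact xor_mem_spn hx hy
  zero_mem' := by
    change enc 0 ∈ spn (bs i)
    rw [enc_zero]
    exact zero_mem_spn _
  smul_mem' c x hx := by
    have h : ∀ c : ZMod 2, c = 0 ∨ c = 1 := by decide
    rcases h c with rfl | rfl
    · rw [zero_smul]
      change enc 0 ∈ spn (bs i)
      rw [enc_zero]
      exact zero_mem_spn _
    · rw [one_smul]
      exact hx

theorem mem_E {i : Fin 16} {x : Fin 10 → ZMod 2} : x ∈ E i ↔ enc x ∈ spn (bs i) := Iff.rfl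

theorem finrank_E (i : Fin 16) : Module.finrank (ZMod 2) (E i) = 5 := by
  obtain ⟨h1, h2, h3⟩ := chk1 i i.2
  have h4 : Nat.card (E i) = 32 := by
    have e : E i ≃ {n // n ∈ (spn (bs i)).toFinset} := by
      refine Equiv.ofBijective (fun x => ⟨enc x.1, List.mem_toFinset.2 (mem_E.1 x.2)⟩) ⟨?_, ?_⟩
      · intro x y hxy
        exact Subtype.ext (enc_inj (congrArg Subtype.val hxy))
      · rintro ⟨n, hn⟩
        have hn' := List.mem_toFinset.1 hn
        refine ⟨⟨dec n, mem_E.2 ?_⟩, Subtype.ext ?_⟩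
        · rw [enc_dec (h3 n hn')]
          exact hn'
        · exact enc_dec (h3 n hn')
    rw [Nat.card_congr e, Nat.card_eq_fintype_card, Fintype.card_coe,
      List.toFinset_card_of_nodup h1, h2]
  have h5 := Module.natCard_eq_pow_finrank (K := ZMod 2) (V := E i)
  rw [h4, Nat.card_zmod] at h5
  exact (Nat.pow_right_injective le_rfl (show 2 ^ 5 = 2 ^ _ from h5)).symm

theorem t_PS : Pool.Agent.H41.PS.S_PS := by
  refine ⟨E, finrank_E, fun i j hij => ?_, fun x => ?_⟩
  · rw [eq_bot_iff]
    rintro x ⟨h1, h2⟩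
    have h3 := chk2 i i.2 j j.2 (fun h => hij (Fin.ext h))
    have h4 : (mk (spn (bs i)) &&& mk (spn (bs j))).testBit (enc x) = true := by
      rw [Nat.testBit_and, mk_testBit, mk_testBit, Bool.and_eq_true, decide_eq_true_eq,
        decide_eq_true_eq]
      exact ⟨h1, h2⟩
    rw [h3] at h4
    have h5 : enc x = 0 := by
      by_contra h6
      obtain ⟨k, hk⟩ := Nat.exists_eq_succ_of_ne_zero h6
      rw [hk, Nat.testBit_succ] at h4
      simp at h4
    exact (Submodule.mem_bot _).2 (enc_inj (h5.trans enc_zero.symm))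
  · have h1 : ff x = 1 ↔ F.testBit (enc x) = true := by
      rw [ff]
      by_cases h : F.testBit (enc x) = true
      · simp [h]
      · simp [h]
    rw [h1]
    have h2 : F.testBit (enc x) = true ↔ enc x ≠ 0 ∧ (un 16).testBit (enc x) = true := by
      rw [chk3.1, Nat.testBit_or, Bool.or_eq_true]
      constructor
      · intro h
        refine ⟨?_, Or.inl h⟩
        intro h0
        rw [h0, chk3.2] at h
        exact absurd h Bool.false_ne_true
      · rintro ⟨h0, h | h⟩
        · exact h
        · exfalso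
          obtain ⟨k, hk⟩ := Nat.exists_eq_succ_of_ne_zero h0
          rw [hk, Nat.testBit_succ] at h
          simp at h
    rw [h2, un_testBit]
    have h3 : enc x ≠ 0 ↔ x ≠ 0 := by
      rw [not_iff_not]
      constructor
      · intro h
        exact enc_inj (h.trans enc_zero.symm)
      · rintro rfl
        exact enc_zero
    rw [h3]
    constructor
    · rintro ⟨h, i, hi, h'⟩
      exact ⟨h, ⟨i, hi⟩, h'⟩
    · rintro ⟨h, i, h'⟩
      exact ⟨h, i, i.2, h'⟩

end Pool.Agent.H376.PS
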